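import Pool.Agent.WL37.Norm

/-! Compact Hausdorff spaces with a weak base that is countable at a point of large character
and of size below beth_omega at every other point. -/

namespace Pool.Agent.Results.MP_5baa61_gt.CompactWeakCharacterGap

theorem result (l : Cardinal.{0}) :
    ∃ (X : Type) (_ : TopologicalSpace X), CompactSpace X ∧ T2Space X ∧
    ∃ (p : X) (V : ℕ → Set X), (∀ n, p ∈ V n) ∧ (∀ n, V (n + 1) ⊆ V n) ∧
      (∀ O : Set X, IsOpen O ↔ (∀ x ∈ O, x ≠ p → O ∈ nhds x) ∧ (p ∈ O → ∃ n, V n ⊆ O)) ∧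
      (∀ x : X, x ≠ p → ∃ (n : ℕ) (B : Set (Set X)),
        Cardinal.mk B ≤ 2 ^ Cardinal.aleph (n : Ordinal) ∧ (∀ b ∈ B, b ∈ nhds x) ∧
          ∀ O ∈ nhds x, ∃ b ∈ B, b ⊆ O) ∧
      ∀ T : Set (Set X), Cardinal.mk T ≤ l → (∀ t ∈ T, IsOpen t) → ⋂₀ T ≠ {p} :=
  Pool.Agent.WL37N.main l

end Pool.Agent.Results.MP_5baa61_gt.CompactWeakCharacterGap
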