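import Pool.Agent.WL13.Space

/-! A regular Lindelof weakly first countable space with a point that is not a G-delta. -/

namespace Pool.Agent.Results.MP_5baa61_gt.LindelofNonGdelta

open Set Topology

/-- weak first countability, as in the problem file -/
def WeaklyFirstCountable (X : Type) [TopologicalSpace X] : Prop :=
  ∃ V : X → ℕ → Set X, (∀ x n, x ∈ V x n) ∧ (∀ x n, V x (n + 1) ⊆ V x n) ∧
    ∀ O : Set X, IsOpen O ↔ ∀ x ∈ O, ∃ n, V x n ⊆ O

theorem result : ∃ (X : Type) (_ : TopologicalSpace X),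
    T3Space X ∧ TopologicalSpace.IsTopologicalBasis {s : Set X | IsClopen s} ∧
    TopologicalSpace.SeparableSpace X ∧ LindelofSpace X ∧ WeaklyFirstCountable X ∧
    ∃ x : X, ¬ IsGδ ({x} : Set X) ∧ (∀ U ∈ nhds x, Set.Countable {z : X | z ∉ U}) ∧
      ∀ y : X, y ≠ x → ∃ K : Set X, y ∈ K ∧ IsOpen K ∧ IsCompact K ∧ K.Countable := by
  obtain ⟨D⟩ := Pool.Agent.WL13.exists_data
  refine ⟨Pool.Agent.WL13.Sp D, inferInstance, inferInstance, Pool.Agent.WL13.clopen_basis,
    inferInstance, inferInstance,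
    ⟨Pool.Agent.WL13.V D, Pool.Agent.WL13.self_mem_V,
      fun x n => Pool.Agent.WL13.V_anti x (Nat.le_succ n), fun _ => Pool.Agent.WL13.isOpen_iff⟩,
    Pool.Agent.WL13.top D, Pool.Agent.WL13.not_isGδ,
    fun _ hU => Pool.Agent.WL13.compl_countable hU, fun y hy => ?_⟩
  rcases y.cases with rfl | ⟨z, rfl⟩
  · exact absurd rfl hy
  · exact ⟨_, Pool.Agent.WL13.self_mem_V _ 0, (Pool.Agent.WL13.isClopen_V z 0).2,
      Pool.Agent.WL13.isCompact_V z 0, (Pool.Agent.WL13.B_countable z 0).image _⟩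

end Pool.Agent.Results.MP_5baa61_gt.LindelofNonGdelta
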