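import Pool.Agent.MP_5baa61_gt.JK.BrM
import Pool.Agent.MP_5baa61_gt.JC.All

/-! A model of ZFC in which every weakly first countable compact space is first countable. -/

namespace Pool.Agent.Results.MP_5baa61_gt.NoJakovlev

open Pool.Agent.ZF92 Pool.Agent.MP_b60a07_lc.H92 Pool.Agent.MP_5baa61_gt
open Pool.Agent.MP_5baa61_gt.JK

theorem result : ∃ M : Set ZFSet.{0}, ZFC M ∧ ∀ X ∈ M, ∀ T ∈ M, CompactSp M X T → WeakFC M X T →
    ∀ p ∈ X, FirstCtAt M T p := by
  obtain ⟨b0, e, g0, lv⟩ := JB.all_lv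
  exact Br.final JC.par (JB.kindP JB.all_keep b0 g0) (JC.main_ok b0 g0 e lv)

end Pool.Agent.Results.MP_5baa61_gt.NoJakovlev
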