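import Pool.Agent.WL13.Mad

/-! A Hausdorff sequentially compact weakly first countable space, first countable nowhere. -/

namespace Pool.Agent.Results.MP_5baa61_gt.SeqCompactNowhere

open Set Topology

/-- weak first countability, as in the problem file -/
def WeaklyFirstCountable (X : Type) [TopologicalSpace X] : Prop :=
  ∃ V : X → ℕ → Set X, (∀ x n, x ∈ V x n) ∧ (∀ x n, V x (n + 1) ⊆ V x n) ∧
    ∀ O : Set X, IsOpen O ↔ ∀ x ∈ O, ∃ n, V x n ⊆ O

theorem result : ∃ (X : Type) (_ : TopologicalSpace X),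
    Nonempty X ∧ T2Space X ∧ SeqCompactSpace X ∧ WeaklyFirstCountable X ∧
    ∀ x : X, ¬ (nhds x).IsCountablyGenerated := by
  obtain ⟨D⟩ := Pool.Agent.WL13.exists_mad
  exact ⟨Pool.Agent.WL13.MSp D, inferInstance, ⟨fun _ => true⟩, inferInstance, inferInstance,
    ⟨Pool.Agent.WL13.MV D, fun _ _ => Or.inl rfl,
      fun x n => Pool.Agent.WL13.MV_anti x (Nat.le_succ n), fun _ => Pool.Agent.WL13.isOpen_iff'⟩,
    Pool.Agent.WL13.not_countablyGenerated⟩

end Pool.Agent.Results.MP_5baa61_gt.SeqCompactNowhere
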